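import Pool.Agent.W680.WH.Stm

/-!
WHH-SCH: the Schur test for `L - L*`.
-/

set_option autoImplicit false

open scoped ComplexConjugate InnerProductSpace
open ContinuousLinearMap Filter Topology

namespace Pool.Agent.W563.WH.Sch

open Pool.Agent.W680.WH

/-! ### Schur test -/

theorem schur_fin (w : ℤ → ℝ) (hw : ∀ n, 0 < w n) (C : ℝ) (hC : 0 < C) (d : ℤ → ℤ → ℂ)
    (h1 : ∀ m (t : Finset ℤ), ∑ n ∈ t, ‖d m n‖ * w n ≤ C * w m)
    (h2 : ∀ n (t : Finset ℤ), ∑ m ∈ t, ‖d m n‖ * w m ≤ C * w n) (s t : Finset ℤ) (g : ℤ → ℂ) :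
    ∑ m ∈ s, ‖∑ n ∈ t, g n * d m n‖ ^ 2 ≤ C ^ 2 * ∑ n ∈ t, ‖g n‖ ^ 2 := by
  set F : ℤ → ℝ := fun m => ‖∑ n ∈ t, g n * d m n‖ with hF
  have hF0 : ∀ m, 0 ≤ F m := fun m => norm_nonneg _
  have hle : ∀ m, F m ≤ ∑ n ∈ t, ‖g n‖ * ‖d m n‖ := fun m =>
    (norm_sum_le _ _).trans (le_of_eq (Finset.sum_congr rfl fun n _ => norm_mul _ _))
  have amgm : ∀ m n, F m * (‖g n‖ * ‖d m n‖) ≤
      (F m ^ 2 / (2 * C * w m)) * (‖d m n‖ * w n)
        + (C * ‖g n‖ ^ 2 / (2 * w n)) * (‖d m n‖ * w m) := by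
    intro m n
    have hm := hw m
    have hn := hw n
    have e : (F m ^ 2 / (2 * C * w m)) * (‖d m n‖ * w n)
        + (C * ‖g n‖ ^ 2 / (2 * w n)) * (‖d m n‖ * w m) - F m * (‖g n‖ * ‖d m n‖)
        = ‖d m n‖ * ((F m * w n - C * ‖g n‖ * w m) ^ 2 / (2 * C * w m * w n)) := by
      field_simp
      ring
    have h3 : 0 ≤ ‖d m n‖ * ((F m * w n - C * ‖g n‖ * w m) ^ 2 / (2 * C * w m * w n)) := by
      positivity
    linarith
  have hsq : ∀ m, F m ^ 2 ≤ (F m ^ 2 / (2 * C * w m)) * (∑ n ∈ t, ‖d m n‖ * w n)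
        + ∑ n ∈ t, (C * ‖g n‖ ^ 2 / (2 * w n)) * (‖d m n‖ * w m) := by
    intro m
    calc F m ^ 2 = F m * F m := by ring
      _ ≤ F m * ∑ n ∈ t, ‖g n‖ * ‖d m n‖ := mul_le_mul_of_nonneg_left (hle m) (hF0 m)
      _ = ∑ n ∈ t, F m * (‖g n‖ * ‖d m n‖) := Finset.mul_sum _ _ _
      _ ≤ ∑ n ∈ t, ((F m ^ 2 / (2 * C * w m)) * (‖d m n‖ * w n)
        + (C * ‖g n‖ ^ 2 / (2 * w n)) * (‖d m n‖ * w m)) :=
          Finset.sum_le_sum fun n _ => amgm m n
      _ = _ := by rw [Finset.sum_add_distrib, Finset.mul_sum]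
  have hsq2 : ∀ m, F m ^ 2 ≤ F m ^ 2 / 2
        + ∑ n ∈ t, (C * ‖g n‖ ^ 2 / (2 * w n)) * (‖d m n‖ * w m) := by
    intro m
    have hm := hw m
    have h3 : (F m ^ 2 / (2 * C * w m)) * (∑ n ∈ t, ‖d m n‖ * w n) ≤
        (F m ^ 2 / (2 * C * w m)) * (C * w m) :=
      mul_le_mul_of_nonneg_left (h1 m t) (by positivity)
    have h4 : (F m ^ 2 / (2 * C * w m)) * (C * w m) = F m ^ 2 / 2 := by
      field_simp
    have := hsq m
    linarith
  have hsum := Finset.sum_le_sum (s := s) fun m _ => hsq2 m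
  rw [Finset.sum_add_distrib, Finset.sum_comm, ← Finset.sum_div] at hsum
  have h5 : ∑ n ∈ t, ∑ m ∈ s, (C * ‖g n‖ ^ 2 / (2 * w n)) * (‖d m n‖ * w m)
      ≤ ∑ n ∈ t, C ^ 2 * ‖g n‖ ^ 2 / 2 := by
    refine Finset.sum_le_sum fun n _ => ?_
    have hn := hw n
    rw [← Finset.mul_sum]
    have h6 : (C * ‖g n‖ ^ 2 / (2 * w n)) * (∑ m ∈ s, ‖d m n‖ * w m) ≤
        (C * ‖g n‖ ^ 2 / (2 * w n)) * (C * w n) :=
      mul_le_mul_of_nonneg_left (h2 n s) (by positivity)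
    have h7 : (C * ‖g n‖ ^ 2 / (2 * w n)) * (C * w n) = C ^ 2 * ‖g n‖ ^ 2 / 2 := by
      field_simp
    linarith
  rw [← Finset.sum_div, ← Finset.mul_sum] at h5
  linarith

theorem schur (D : E →L[ℂ] E) (w : ℤ → ℝ) (hw : ∀ n, 0 < w n) (C : ℝ) (hC : 0 < C)
    (h1 : ∀ m (t : Finset ℤ), ∑ n ∈ t, ‖(D (lp.single 2 n (1 : ℂ))) m‖ * w n ≤ C * w m)
    (h2 : ∀ n (t : Finset ℤ), ∑ m ∈ t, ‖(D (lp.single 2 n (1 : ℂ))) m‖ * w m ≤ C * w n) :
    ‖D‖ ≤ C := by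
  refine D.opNorm_le_bound hC.le fun g => ?_
  refine le_of_sq_le_sq ?_ (by positivity)
  rw [E_norm_sq, mul_pow]
  have hfin : ∀ s : Finset ℤ, ∑ m ∈ s, ‖(D g) m‖ ^ 2 ≤ C ^ 2 * ‖g‖ ^ 2 := by
    intro s
    have hs := lp.hasSum_single (p := 2) (E := fun _ : ℤ => ℂ) (by norm_num) g
    have hs2 := hs.mapL D
    rw [HasSum, SummationFilter.unconditional_filter] at hs2
    have hev : ∀ m : ℤ, Continuous (fun f : E => f m) := fun m =>
      (lp.evalCLM ℂ (fun _ : ℤ => ℂ) 2 m).continuous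
    have hcont : Continuous (fun f : E => ∑ m ∈ s, ‖f m‖ ^ 2) :=
      continuous_finsetSum _ fun m _ => ((hev m).norm).pow 2
    have hlim := (hcont.tendsto (D g)).comp hs2
    refine le_of_tendsto hlim (Eventually.of_forall fun t => ?_)
    simp only [Function.comp_apply]
    have e1 : ∀ m, (∑ n ∈ t, D (lp.single 2 n (g n))) m
        = ∑ n ∈ t, g n * (D (lp.single 2 n (1 : ℂ))) m := by
      intro m
      have e2 : (∑ n ∈ t, D (lp.single 2 n (g n))) m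
          = ∑ n ∈ t, (D (lp.single 2 n (g n))) m :=
        map_sum (lp.evalCLM ℂ (fun _ : ℤ => ℂ) 2 m) _ t
      rw [e2]
      refine Finset.sum_congr rfl fun n _ => ?_
      have e3 : (lp.single 2 n (g n) : E) = g n • lp.single 2 n (1 : ℂ) := by
        rw [← lp.single_smul, smul_eq_mul, mul_one]
      rw [e3, map_smul]
      rfl
    simp only [e1]
    refine (schur_fin w hw C hC (fun m n => (D (lp.single 2 n (1 : ℂ))) m) h1 h2 s t g).trans ?_
    refine mul_le_mul_of_nonneg_left ?_ (by positivity)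
    rw [E_norm_sq]
    exact (E_summable g).sum_le_tsum t fun n _ => by positivity
  exact (E_summable (D g)).tsum_le_of_sum_le hfin

/-! ### fourth roots -/

/-- fourth root -/
noncomputable def zz (j : ℕ) : ℝ := (j : ℝ) ^ ((1 / 4 : ℝ))

theorem zz_nonneg (j : ℕ) : 0 ≤ zz j := Real.rpow_nonneg (Nat.cast_nonneg j) _

theorem zz_pos (j : ℕ) : 0 < zz (j + 1) := Real.rpow_pos_of_pos (by positivity) _

theorem zz_four (j : ℕ) : zz j ^ 4 = j := by
  unfold zz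
  rw [← Real.rpow_natCast, ← Real.rpow_mul (Nat.cast_nonneg j)]
  norm_num

theorem zz_mono {i j : ℕ} (h : i ≤ j) : zz i ≤ zz j :=
  Real.rpow_le_rpow (Nat.cast_nonneg i) (by exact_mod_cast h) (by norm_num)

theorem zz_step (j : ℕ) : (zz (j + 1) ^ 3)⁻¹ ≤ 4 * (zz (j + 1) - zz j) := by
  have h0 := zz_nonneg j
  have h1 := zz_pos j
  have h2 := zz_mono (Nat.le_succ j)
  have h3 : zz (j + 1) ^ 4 - zz j ^ 4 = 1 := by
    rw [zz_four, zz_four]
    push_cast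
    ring
  rw [inv_le_iff_one_le_mul₀ (by positivity)]
  set a := zz (j + 1)
  set b := zz j
  have h4 : a ^ 4 - b ^ 4 = (a - b) * (a ^ 3 + a ^ 2 * b + a * b ^ 2 + b ^ 3) := by ring
  have h5 : a ^ 3 + a ^ 2 * b + a * b ^ 2 + b ^ 3 ≤ 4 * a ^ 3 := by
    have e1 : a ^ 2 * b ≤ a ^ 2 * a := mul_le_mul_of_nonneg_left h2 (by positivity)
    have e2 : b ^ 2 ≤ a ^ 2 := pow_le_pow_left₀ h0 h2 2
    have e3 : a * b ^ 2 ≤ a * a ^ 2 := mul_le_mul_of_nonneg_left e2 h1.le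
    have e4 : b ^ 3 ≤ a ^ 3 := pow_le_pow_left₀ h0 h2 3
    nlinarith
  have h6 : (a - b) * (a ^ 3 + a ^ 2 * b + a * b ^ 2 + b ^ 3) ≤ (a - b) * (4 * a ^ 3) :=
    mul_le_mul_of_nonneg_left h5 (by linarith)
  nlinarith

theorem zz_tail (j : ℕ) :
    (zz (j + 2) ^ 5)⁻¹ ≤ 4 * ((zz (j + 1))⁻¹ - (zz (j + 2))⁻¹) := by
  have h1 := zz_pos j
  have h1' := zz_pos (j + 1)
  have h2 := zz_mono (Nat.le_succ (j + 1))
  have h3 := zz_step (j + 1)
  set a := zz (j + 2) with ha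
  set b := zz (j + 1) with hb
  have h4 : 4 * (b⁻¹ - a⁻¹) = 4 * (a - b) * (a * b)⁻¹ := by
    field_simp
  rw [h4]
  have h5 : (a ^ 5)⁻¹ ≤ (a ^ 3)⁻¹ * (a * b)⁻¹ := by
    rw [← mul_inv]
    refine inv_anti₀ (by positivity) ?_
    have : a ^ 3 * (a * b) ≤ a ^ 3 * (a * a) :=
      mul_le_mul_of_nonneg_left (mul_le_mul_of_nonneg_left h2 h1'.le) (by positivity)
    nlinarith
  exact h5.trans (mul_le_mul_of_nonneg_right h3 (by positivity))

/-- the kernel times the weight -/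
noncomputable def ps (i j : ℕ) : ℝ :=
  (if j ≤ i then (zz (i + 1) ^ 3)⁻¹ * (zz (j + 1))⁻¹ else (zz (j + 1) ^ 3)⁻¹ * (zz (i + 1))⁻¹)
    * (zz (j + 1) ^ 2)⁻¹

theorem ps_nonneg (i j : ℕ) : 0 ≤ ps i j := by
  have h1 := zz_pos i
  have h2 := zz_pos j
  unfold ps
  split_ifs <;> positivity

theorem ps_sum1 (i M : ℕ) (hM : M ≤ i + 1) :
    ∑ j ∈ Finset.range M, ps i j ≤ 4 * (zz (i + 1) ^ 3)⁻¹ * zz M := by
  induction M with
  | zero =>
      have h1 := zz_pos i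
      have h2 := zz_nonneg 0
      simp only [Finset.range_zero, Finset.sum_empty]
      positivity
  | succ M ih =>
      rw [Finset.sum_range_succ]
      have h1 := ih (by omega)
      have h2 := zz_step M
      have h3 := zz_pos i
      have h4 := zz_pos M
      have e : ps i M = (zz (i + 1) ^ 3)⁻¹ * (zz (M + 1) ^ 3)⁻¹ := by
        unfold ps
        rw [if_pos (by omega)]
        field_simp
      rw [e]
      have h5 : (zz (i + 1) ^ 3)⁻¹ * (zz (M + 1) ^ 3)⁻¹ ≤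
          (zz (i + 1) ^ 3)⁻¹ * (4 * (zz (M + 1) - zz M)) :=
        mul_le_mul_of_nonneg_left h2 (by positivity)
      linarith

theorem ps_sum2 (i k : ℕ) :
    ∑ j ∈ Finset.range (i + 1 + k), ps i j ≤
      4 * (zz (i + 1) ^ 2)⁻¹ + 4 * (zz (i + 1))⁻¹ * ((zz (i + 1))⁻¹ - (zz (i + 1 + k))⁻¹) := by
  have h3 := zz_pos i
  induction k with
  | zero =>
      have h1 := ps_sum1 i (i + 1) le_rfl
      have e : 4 * (zz (i + 1) ^ 3)⁻¹ * zz (i + 1) = 4 * (zz (i + 1) ^ 2)⁻¹ := by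
        field_simp
      rw [e] at h1
      simpa using h1
  | succ k ih =>
      have hidx : i + 1 + (k + 1) = (i + 1 + k) + 1 := by ring
      rw [hidx, Finset.sum_range_succ]
      have h4 := zz_tail (i + k)
      have e1 : i + k + 2 = i + 1 + k + 1 := by ring
      have e2 : i + k + 1 = i + 1 + k := by ring
      rw [e1, e2] at h4
      have h5 := zz_pos (i + 1 + k)
      have e : ps i (i + 1 + k) = (zz (i + 1))⁻¹ * (zz (i + 1 + k + 1) ^ 5)⁻¹ := by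
        unfold ps
        rw [if_neg (by omega)]
        field_simp
      rw [e]
      have h6 : (zz (i + 1))⁻¹ * (zz (i + 1 + k + 1) ^ 5)⁻¹ ≤
          (zz (i + 1))⁻¹ * (4 * ((zz (i + 1 + k))⁻¹ - (zz (i + 1 + k + 1))⁻¹)) :=
        mul_le_mul_of_nonneg_left h4 (by positivity)
      linarith

theorem ps_sum (i M : ℕ) : ∑ j ∈ Finset.range M, ps i j ≤ 8 * (zz (i + 1) ^ 2)⁻¹ := by
  have h3 := zz_pos i
  have h1 : ∑ j ∈ Finset.range M, ps i j ≤ ∑ j ∈ Finset.range (i + 1 + M), ps i j :=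
    Finset.sum_le_sum_of_subset_of_nonneg (Finset.range_mono (by omega))
      fun j _ _ => ps_nonneg i j
  refine h1.trans ((ps_sum2 i M).trans ?_)
  have h4 : 0 < zz (i + 1 + M) := by
    have e : i + 1 + M = (i + M) + 1 := by ring
    rw [e]
    exact zz_pos _
  have h5 : 0 ≤ (zz (i + 1))⁻¹ * (zz (i + 1 + M))⁻¹ := by positivity
  have e : (zz (i + 1))⁻¹ * (zz (i + 1))⁻¹ = (zz (i + 1) ^ 2)⁻¹ := by
    rw [← mul_inv, sq]
  nlinarith

/-- sums over finite sets of integers -/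
theorem ps_int (i : ℕ) (t : Finset ℤ) :
    ∑ n ∈ t, ps i n.natAbs ≤ 16 * (zz (i + 1) ^ 2)⁻¹ := by
  classical
  obtain ⟨M, hM⟩ : ∃ M : ℕ, ∀ n ∈ t, n.natAbs < M := by
    refine ⟨t.sup Int.natAbs + 1, fun n hn => ?_⟩
    exact Nat.lt_succ_of_le (Finset.le_sup (f := Int.natAbs) hn)
  have half : ∀ (p : ℤ → Prop) [DecidablePred p],
      (∀ a b : ℤ, p a → p b → a.natAbs = b.natAbs → a = b) →
      ∑ n ∈ t.filter p, ps i n.natAbs ≤ 8 * (zz (i + 1) ^ 2)⁻¹ := by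
    intro p _ hp
    have e : ∑ n ∈ t.filter p, ps i n.natAbs
        = ∑ j ∈ (t.filter p).image Int.natAbs, ps i j := by
      rw [Finset.sum_image]
      intro a ha b hb hab
      exact hp a b (Finset.mem_filter.1 ha).2 (Finset.mem_filter.1 hb).2 hab
    rw [e]
    refine (Finset.sum_le_sum_of_subset_of_nonneg (t := Finset.range M) ?_
      fun j _ _ => ps_nonneg i j).trans (ps_sum i M)
    intro j hj
    obtain ⟨n, hn, rfl⟩ := Finset.mem_image.1 hj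
    exact Finset.mem_range.2 (hM n (Finset.mem_filter.1 hn).1)
  rw [← Finset.sum_filter_add_sum_filter_not t (fun n : ℤ => 0 ≤ n)]
  have h1 := half (fun n : ℤ => 0 ≤ n) (fun a b ha hb hab => by omega)
  have h2 := half (fun n : ℤ => ¬ 0 ≤ n) (fun a b ha hb hab => by omega)
  linarith

/-! ### the matrix -/

theorem rp1 (j : ℕ) : (1 + (j : ℝ)) ^ (-(3 / 4) : ℝ) = (zz (j + 1) ^ 3)⁻¹ := by
  unfold zz
  have h0 : (0 : ℝ) ≤ ((j + 1 : ℕ) : ℝ) := Nat.cast_nonneg _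
  rw [← Real.rpow_natCast, ← Real.rpow_mul h0, ← Real.rpow_neg h0]
  push_cast
  rw [add_comm]
  norm_num

theorem rp2 (j : ℕ) : (1 + (j : ℝ)) ^ (-(1 / 4) : ℝ) = (zz (j + 1))⁻¹ := by
  unfold zz
  have h0 : (0 : ℝ) ≤ ((j + 1 : ℕ) : ℝ) := Nat.cast_nonneg _
  rw [← Real.rpow_neg h0]
  push_cast
  rw [add_comm]

theorem adj_entry (L : E →L[ℂ] E) (m n : ℤ) :
    (adjoint L (lp.single 2 n (1 : ℂ))) m = conj ((L (lp.single 2 m (1 : ℂ))) n) := by
  have h1 : ⟪(lp.single 2 m (1 : ℂ) : E), adjoint L (lp.single 2 n (1 : ℂ))⟫_ℂ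
      = ⟪L (lp.single 2 m (1 : ℂ)), (lp.single 2 n (1 : ℂ) : E)⟫_ℂ :=
    adjoint_inner_right L _ _
  rw [lp.inner_single_left, lp.inner_single_right] at h1
  simpa using h1

theorem entry_bd (C : ℝ) (hK : ∀ m n : ℤ, m ≠ n → m.natAbs ≤ n.natAbs →
    |Real.sqrt (om m / om n) - Real.sqrt (om n / om m)| / |(m : ℝ) - n| ≤
      C * (1 + (n.natAbs : ℝ)) ^ (-(3 / 4) : ℝ) * (1 + (m.natAbs : ℝ)) ^ (-(1 / 4) : ℝ))
    (r : ℝ) (L : E →L[ℂ] E) (hr0 : 0 ≤ r) (hr1 : r < 1) (hL : LogMat r L) (m n : ℤ) :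
    ‖((L - adjoint L) (lp.single 2 n (1 : ℂ))) m‖ * (zz (n.natAbs + 1) ^ 2)⁻¹
      ≤ |C| * ps m.natAbs n.natAbs := by
  have hn0 := zz_pos n.natAbs
  have hm0 := zz_pos m.natAbs
  have e0 : ((L - adjoint L) (lp.single 2 n (1 : ℂ))) m
      = (L (lp.single 2 n (1 : ℂ))) m - conj ((L (lp.single 2 m (1 : ℂ))) n) := by
    rw [← adj_entry]
    rfl
  by_cases hmn : m = n
  · have h1 := hL n m
    have h2 := hL m n
    rw [if_pos hmn] at h1
    rw [if_pos hmn.symm] at h2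
    have e3 : ((0 : ℝ) : ℂ) - conj (((0 : ℝ) : ℂ)) = 0 := by simp
    have e4 : ((L - adjoint L) (lp.single 2 n (1 : ℂ))) m = 0 := by
      rw [e0, h1, h2]
      exact e3
    rw [e4, norm_zero, zero_mul]
    exact mul_nonneg (abs_nonneg _) (ps_nonneg _ _)
  · have h1 := hL n m
    have h2 := hL m n
    rw [if_neg hmn] at h1
    rw [if_neg (Ne.symm hmn)] at h2
    have hk : (n - m).natAbs = (m - n).natAbs := by omega
    rw [hk] at h2
    set k := (m - n).natAbs with hkdef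
    have hkr : (k : ℝ) = |(m : ℝ) - n| := by
      rw [hkdef, Nat.cast_natAbs]
      push_cast
      rfl
    have hk0 : 0 < k := by omega
    have e1 : ((L - adjoint L) (lp.single 2 n (1 : ℂ))) m
        = ((-(r ^ k / (k : ℝ) * (Real.sqrt (om m / om n) - Real.sqrt (om n / om m))) : ℝ) : ℂ) := by
      rw [e0, h1, h2, Complex.conj_ofReal, ← Complex.ofReal_sub]
      congr 1
      ring
    have hbd : ‖((L - adjoint L) (lp.single 2 n (1 : ℂ))) m‖ ≤
        |Real.sqrt (om m / om n) - Real.sqrt (om n / om m)| / |(m : ℝ) - n| := by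
      rw [e1, Complex.norm_real, Real.norm_eq_abs, abs_neg, abs_mul, ← hkr]
      have hrk : |r ^ k / (k : ℝ)| ≤ 1 / (k : ℝ) := by
        rw [abs_of_nonneg (by positivity)]
        exact div_le_div_of_nonneg_right (pow_le_one₀ hr0 hr1.le) (by positivity)
      calc _ ≤ 1 / (k : ℝ) * |Real.sqrt (om m / om n) - Real.sqrt (om n / om m)| :=
            mul_le_mul_of_nonneg_right hrk (abs_nonneg _)
        _ = _ := by ring
    have hker : ‖((L - adjoint L) (lp.single 2 n (1 : ℂ))) m‖ ≤ |C| *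
        (if n.natAbs ≤ m.natAbs then (zz (m.natAbs + 1) ^ 3)⁻¹ * (zz (n.natAbs + 1))⁻¹
          else (zz (n.natAbs + 1) ^ 3)⁻¹ * (zz (m.natAbs + 1))⁻¹) := by
      refine hbd.trans ?_
      by_cases hle : n.natAbs ≤ m.natAbs
      · rw [if_pos hle]
        have h3 := hK n m (Ne.symm hmn) hle
        rw [rp1, rp2, abs_sub_comm (Real.sqrt (om n / om m)), abs_sub_comm (n : ℝ)] at h3
        refine h3.trans ?_
        rw [mul_assoc]
        exact mul_le_mul_of_nonneg_right (le_abs_self C) (by positivity)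
      · rw [if_neg hle]
        have h3 := hK m n hmn (by omega)
        rw [rp1, rp2] at h3
        refine h3.trans ?_
        rw [mul_assoc]
        exact mul_le_mul_of_nonneg_right (le_abs_self C) (by positivity)
    unfold ps
    rw [← mul_assoc]
    exact mul_le_mul_of_nonneg_right hker (by positivity)

/-- WHH-SCH -/
theorem sch (h1 : S_KER) : S_SCH := by
  obtain ⟨C, hK⟩ := h1
  refine ⟨16 * |C| + 1, fun r L hr0 hr1 hL => ?_⟩
  have hC : 0 < 16 * |C| + 1 := by positivity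
  have hrow : ∀ m (t : Finset ℤ), ∑ n ∈ t, ‖((L - adjoint L) (lp.single 2 n (1 : ℂ))) m‖
      * (zz (n.natAbs + 1) ^ 2)⁻¹ ≤ (16 * |C| + 1) * (zz (m.natAbs + 1) ^ 2)⁻¹ := by
    intro m t
    have hm0 := zz_pos m.natAbs
    calc _ ≤ ∑ n ∈ t, |C| * ps m.natAbs n.natAbs :=
          Finset.sum_le_sum fun n _ => entry_bd C hK r L hr0 hr1 hL m n
      _ = |C| * ∑ n ∈ t, ps m.natAbs n.natAbs := (Finset.mul_sum _ _ _).symm
      _ ≤ |C| * (16 * (zz (m.natAbs + 1) ^ 2)⁻¹) :=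
          mul_le_mul_of_nonneg_left (ps_int _ t) (abs_nonneg C)
      _ ≤ _ := by
          have : 0 ≤ (zz (m.natAbs + 1) ^ 2)⁻¹ := by positivity
          nlinarith
  have hsymm : ∀ m n, ‖((L - adjoint L) (lp.single 2 n (1 : ℂ))) m‖
      = ‖((L - adjoint L) (lp.single 2 m (1 : ℂ))) n‖ := by
    intro m n
    have e0 : ∀ a b : ℤ, ((L - adjoint L) (lp.single 2 b (1 : ℂ))) a
        = (L (lp.single 2 b (1 : ℂ))) a - conj ((L (lp.single 2 a (1 : ℂ))) b) := by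
      intro a b
      rw [← adj_entry]
      rfl
    rw [e0, e0, ← RCLike.norm_conj ((L (lp.single 2 m (1 : ℂ))) n - _), map_sub,
      Complex.conj_conj, norm_sub_rev]
  refine schur _ (fun n => (zz (n.natAbs + 1) ^ 2)⁻¹) (fun n => ?_) _ hC hrow ?_
  · have := zz_pos n.natAbs
    positivity
  · intro n t
    simp only [hsymm _ n]
    exact hrow n t

end Pool.Agent.W563.WH.Sch
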